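import Mathlib
import Pool.Agent.H24.Aks

/-!
# Composite solutions of the congruence of Agrawal, Bhattacharjee and Pandey

Let `r` be a prime, `gcd (r, n) = 1` and `(X - 1) ^ n ≡ X ^ n - 1` modulo `X ^ r - 1` and `n`, with `n > 1`
composite.  Then `n` is odd; every prime factor `p` of `n` satisfies `r p < n`, and the largest divisor
of `n` prime to `p` is `1` or larger than `r`; and if `p ^ a` divides `n`, `a ≥ 2`, then `p > r`,
`r ^ (p - 1) ≡ 1` modulo `p ^ a` (so `p` is a Wieferich prime to the base `r`), and even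
`(X - 1) ^ p ≡ X ^ p - 1` modulo `X ^ r - 1` and `p ^ a`.

Proof.  (1) Modulo `p` the congruence for the exponent `n = p ^ k m` implies the congruence for `m`, since
`X ^ r - 1` is squarefree modulo `p`.  If `1 < m < r`, then `(X - 1) ^ m = X ^ m - 1` modulo `p`, which
gives `p ∣ m`.
(2) Let `p ^ a ∣ n`, and let `x` be the class of `X` modulo `X ^ r - 1` and `p ^ a`, `u = x - 1`,
`v = x ^ p - 1`, and `E = n ^ (r - 1)`.  Iterating the congruence gives `u ^ E = u` and `v ^ E = v`, as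
`E ≡ 1` modulo `r`.  From `u ^ p ≡ v` modulo `p` one gets `(u ^ p) ^ (p ^ (a - 1)) = v ^ (p ^ (a - 1))`, and so
`u ^ p = (u ^ p) ^ E = v ^ E = v`.  If `p < r`, comparison of the coefficients of `X` gives
`p ^ a ∣ p`.  The product of the conjugates of `ζ - 1`, `ζ` a primitive `r`-th root of unity, is `± r`,
so that `r ^ p ≡ r` modulo `p ^ a`.
(3) If `n` is even, then the substitution `X → X⁻¹` gives `2 (X ^ n - 1) = 0`.
-/

namespace Pool.Agent.Results.MP_4003b2_nt.CompositeSolutions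

/-- **Main theorem.** -/
theorem result (r n : ℕ) (hr : r.Prime) (hn : 1 < n) (hrn : Nat.Coprime r n) (hcomp : ¬ n.Prime)
    (h : (Polynomial.X ^ r - 1 : Polynomial (ZMod n)) ∣
      (Polynomial.X - 1) ^ n - (Polynomial.X ^ n - 1)) :
    Odd n ∧ ∀ p : ℕ, p.Prime → p ∣ n →
      r * p < n ∧
      (n / p ^ n.factorization p = 1 ∨ r < n / p ^ n.factorization p) ∧
      ∀ a : ℕ, 2 ≤ a → p ^ a ∣ n → r < p ∧ r ^ (p - 1) ≡ 1 [MOD p ^ a] ∧
        ((Polynomial.X ^ r - 1 : Polynomial (ZMod (p ^ a))) ∣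
          (Polynomial.X - 1) ^ p - (Polynomial.X ^ p - 1)) :=
  Pool.Agent.H24.Aks.main hr hn hrn hcomp h

end Pool.Agent.Results.MP_4003b2_nt.CompositeSolutions
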